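import Pool.Agent.Y80.KM.HStruct
import Pool.Agent.Y80.KM.CharDefs

set_option autoImplicit false

open scoped BigOperators

/-! Grouping the factors of the graded Euler characteristic by degree and weight. -/

namespace Pool.Agent.Y93.KM

open Pool.Agent.Y80.KM

theorem group_gen {I Γ' : Type*} [AddCommMonoid Γ'] {N : ℕ} (γ : I → ℕ × (Fin N → ℤ))
    (F : Finset I) (N0 : ℕ) (hpos : ∀ i, 1 ≤ (γ i).1) (hF : ∀ i, i ∈ F ↔ (γ i).1 ≤ N0)
    (L : Finset (Fin N → ℤ)) (hL : ∀ s, (γ s).2 ∈ L) (pr : (Fin N → ℤ) → Γ')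
    (m : ℕ → (Fin N → ℤ) → ℕ) (hm : ∀ n, ∀ v ∈ L, {s | γ s = (n, v)}.ncard = m n v) :
    eprod F (fun i => (γ i).1) (fun i => pr (γ i).2) =
      ∏ n ∈ Finset.Icc 1 N0, ∏ v ∈ L,
        (1 - PowerSeries.monomial n (AddMonoidAlgebra.single (pr v) (1 : ℤ))) ^ m n v := by
  classical
  unfold eprod
  rw [← Finset.prod_fiberwise_of_maps_to (t := Finset.Icc 1 N0) (g := fun i => (γ i).1)
    (fun i hi => Finset.mem_Icc.2 ⟨hpos i, (hF i).1 hi⟩)]
  refine Finset.prod_congr rfl fun n hn => ?_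
  rw [← Finset.prod_fiberwise_of_maps_to (t := L) (g := fun i => (γ i).2) (fun i _ => hL i)]
  refine Finset.prod_congr rfl fun v hv => ?_
  have hcard : ((F.filter fun i => (γ i).1 = n).filter fun i => (γ i).2 = v).card = m n v := by
    rw [← hm n v hv, ← Set.ncard_coe_finset]
    congr 1
    ext s
    simp only [Finset.coe_filter, Finset.mem_filter, Set.mem_ofPred_eq, hF]
    constructor
    · rintro ⟨⟨_, h1⟩, h2⟩
      exact Prod.ext h1 h2
    · intro h
      rw [h]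
      exact ⟨⟨(Finset.mem_Icc.1 hn).2, rfl⟩, rfl⟩
  rw [← hcard, ← Finset.prod_const]
  refine Finset.prod_congr rfl fun i hi => ?_
  rw [Finset.mem_filter, Finset.mem_filter] at hi
  beta_reduce
  rw [hi.1.2, hi.2]

theorem group3 {I : Type*} (γ : I → ℕ × (Fin 3 → ℤ)) (F : Finset I) (N0 : ℕ)
    (hpos : ∀ i, 1 ≤ (γ i).1) (hF : ∀ i, i ∈ F ↔ (γ i).1 ≤ N0) (A B : ℕ → ℕ)
    (h0 : ∀ n, {i | γ i = (n, 0)}.ncard = 2 * A n + B n)
    (h1 : ∀ n, ∀ i j : Fin 3, i ≠ j → {s | γ s = (n, epsd i j)}.ncard = A n)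
    (h2 : ∀ s, (γ s).2 = 0 ∨ ∃ i j : Fin 3, i ≠ j ∧ (γ s).2 = epsd i j) :
    eprod F (fun i => (γ i).1) (fun i => ((γ i).2 0, -(γ i).2 2)) = GG A B N0 := by
  have hne : ∀ i j : Fin 3, i ≠ j → epsd i j ≠ 0 := by decide
  rw [group_gen γ F N0 hpos hF {0, epsd 0 1, epsd 1 2, epsd 0 2, epsd 1 0, epsd 2 1, epsd 2 0} ?_
    (fun v => (v 0, -v 2)) (fun n v => if v = 0 then 2 * A n + B n else A n) ?_, GG]
  · refine Finset.prod_congr rfl fun n _ => ?_
    rw [Finset.prod_insert (by decide), Finset.prod_insert (by decide),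
      Finset.prod_insert (by decide), Finset.prod_insert (by decide),
      Finset.prod_insert (by decide), Finset.prod_insert (by decide), Finset.prod_singleton,
      if_pos rfl, if_neg (hne _ _ (by decide)), if_neg (hne _ _ (by decide)),
      if_neg (hne _ _ (by decide)), if_neg (hne _ _ (by decide)), if_neg (hne _ _ (by decide)),
      if_neg (hne _ _ (by decide))]
    simp only [List.map_cons, List.map_nil, List.prod_cons, List.prod_nil, mul_one]
    rfl
  · intro s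
    rcases h2 s with h | ⟨i, j, hij, h⟩
    · rw [h]; simp
    · rw [h]
      clear h
      revert i j
      decide
  · intro n v hv
    simp only [Finset.mem_insert, Finset.mem_singleton] at hv
    rcases hv with rfl | rfl | rfl | rfl | rfl | rfl | rfl
    · rw [if_pos rfl, h0]
    all_goals rw [if_neg (hne _ _ (by decide)), h1 _ _ _ (by decide)]

theorem zpw1_nat (f : PowerSeries TorusChar) (n : ℕ) : zpw1 f (n : ℤ) = f ^ n := by
  unfold zpw1
  rw [if_pos (Int.natCast_nonneg n), Int.toNat_natCast]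

theorem group2 {I : Type*} (γ : I → ℕ × (Fin 2 → ℤ)) (F : Finset I) (N0 : ℕ)
    (hpos : ∀ i, 1 ≤ (γ i).1) (hF : ∀ i, i ∈ F ↔ (γ i).1 ≤ N0) (A B : ℕ → ℕ)
    (h0 : ∀ n, {i | γ i = (n, 0)}.ncard = A n + B n)
    (h1 : ∀ n, ∀ i j : Fin 2, i ≠ j → {s | γ s = (n, epsd i j)}.ncard = A n)
    (h2 : ∀ s, (γ s).2 = 0 ∨ ∃ i j : Fin 2, i ≠ j ∧ (γ s).2 = epsd i j) :
    eprod F (fun i => (γ i).1) (fun i => (γ i).2 0) =
      GJ (fun n => (A n : ℤ)) (fun n => (B n : ℤ)) N0 := by
  have hne : ∀ i j : Fin 2, i ≠ j → epsd i j ≠ 0 := by decide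
  rw [group_gen γ F N0 hpos hF {0, epsd 0 1, epsd 1 0} ?_
    (fun v => v 0) (fun n v => if v = 0 then A n + B n else A n) ?_, GJ]
  · refine Finset.prod_congr rfl fun n _ => ?_
    rw [Finset.prod_insert (by decide), Finset.prod_insert (by decide), Finset.prod_singleton,
      if_pos rfl, if_neg (hne _ _ (by decide)), if_neg (hne _ _ (by decide)), ← Nat.cast_add,
      zpw1_nat, zpw1_nat, zpw1_nat]
    rfl
  · intro s
    rcases h2 s with h | ⟨i, j, hij, h⟩
    · rw [h]; simp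
    · rw [h]
      clear h
      revert i j
      decide
  · intro n v hv
    simp only [Finset.mem_insert, Finset.mem_singleton] at hv
    rcases hv with rfl | rfl | rfl
    · rw [if_pos rfl, h0]
    all_goals rw [if_neg (hne _ _ (by decide)), h1 _ _ _ (by decide)]

end Pool.Agent.Y93.KM
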