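import Pool.Agent.Y93.KM.Ser

set_option autoImplicit false

/-! The recursion for the numbers `A n`, `B n`. -/

namespace Pool.Agent.Y93.KM

open Pool.Agent.Y80.KM

/-- `e03` of the coefficients -/
noncomputable def E0 (p : TC) : ℤ := e03 fun μ => p.coeff μ

/-- `egl3` of the coefficients -/
noncomputable def E1 (p : TC) : ℤ := egl3 fun μ => p.coeff μ

theorem E0_sub (p q : TC) : E0 (p - q) = E0 p - E0 q := by
  simp only [E0, e03, AddMonoidAlgebra.coeff_sub, Finsupp.sub_apply]; ring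

theorem E1_sub (p q : TC) : E1 (p - q) = E1 p - E1 q := by
  simp only [E1, egl3, glw, List.map_cons, List.map_nil, List.sum_cons, List.sum_nil, e03,
    AddMonoidAlgebra.coeff_sub, Finsupp.sub_apply]; ring

theorem nat_mul (a : ℕ) (p : TC) : (a : TC) * p = (a : ℤ) • p := by
  rw [zsmul_eq_mul]; push_cast; rfl

theorem E0_nat (a b : ℕ) (p q : TC) :
    E0 ((a : TC) * p + (b : TC) * q) = (a : ℤ) * E0 p + (b : ℤ) * E0 q := by
  rw [nat_mul, nat_mul]
  simp only [E0, e03, AddMonoidAlgebra.coeff_add, Finsupp.add_apply,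
    AddMonoidAlgebra.coeff_smul_apply, smul_eq_mul]; ring

theorem E1_nat (a b : ℕ) (p q : TC) :
    E1 ((a : TC) * p + (b : TC) * q) = (a : ℤ) * E1 p + (b : ℤ) * E1 q := by
  rw [nat_mul, nat_mul]
  simp only [E1, egl3, glw, List.map_cons, List.map_nil, List.sum_cons, List.sum_nil, e03,
    AddMonoidAlgebra.coeff_add, Finsupp.add_apply,
    AddMonoidAlgebra.coeff_smul_apply, smul_eq_mul]; ring

theorem e03_look (t : List (List ℤ)) (m : ℕ) (u v : ℤ) (m1 m2 : ℕ) (h1 : u + m = m1)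
    (h2 : v + m = m2) :
    (e03 fun μ => (ww ^ m * ev2 t).coeff (μ + (u, v))) = f0 t m1 m2 := by
  simp only [e03, f0, Prod.mk_add_mk]
  rw [coeff_look t m (0 + u) (0 + v) m1 m2 (by omega) (by omega),
    coeff_look t m (1 + u) (0 + v) (m1 + 1) m2 (by omega) (by omega),
    coeff_look t m (0 + u) (1 + v) m1 (m2 + 1) (by omega) (by omega),
    coeff_look t m (2 + u) (1 + v) (m1 + 2) (m2 + 1) (by omega) (by omega),
    coeff_look t m (1 + u) (2 + v) (m1 + 1) (m2 + 2) (by omega) (by omega),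
    coeff_look t m (2 + u) (2 + v) (m1 + 2) (m2 + 2) (by omega) (by omega)]

theorem E0_look (t : List (List ℤ)) (m : ℕ) : E0 (ww ^ m * ev2 t) = f0 t m m := by
  rw [← e03_look t m 0 0 m m (by omega) (by omega)]
  simp only [E0, Prod.mk_zero_zero, add_zero]

theorem E1_look (t : List (List ℤ)) (m : ℕ) (hm : 1 ≤ m) : E1 (ww ^ m * ev2 t) = f1 t m := by
  simp only [E1, egl3, glw, List.map_cons, List.map_nil, List.sum_cons, List.sum_nil]
  rw [e03_look t m 0 0 m m (by omega) (by omega),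
    e03_look t m 1 0 (m + 1) m (by omega) (by omega),
    e03_look t m 0 1 m (m + 1) (by omega) (by omega),
    e03_look t m 1 1 (m + 1) (m + 1) (by omega) (by omega),
    e03_look t m (-1) 0 (m - 1) m (by omega) (by omega),
    e03_look t m 0 (-1) m (m - 1) (by omega) (by omega),
    e03_look t m (-1) (-1) (m - 1) (m - 1) (by omega) (by omega), f1]
  ring

/-- the adjoint character -/
noncomputable def adj : TC :=
  2 + (wt 1 0 + (wt 0 1 + (wt 1 1 + (wt (-1) 0 + (wt 0 (-1) + wt (-1) (-1))))))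

theorem xyw : xx * yy * ww = 1 := by
  rw [xx, yy, ww, wt_mul, wt_mul]; rfl

theorem adj_eq : adj = ww ^ 1 * ev2 [[1, 1], [1, 2, 1], [0, 1, 1]] := by
  have e1 : wt 1 1 = xx * yy := by rw [xx, yy, wt_mul]; rfl
  have e2 : wt (-1) 0 = yy * ww := by rw [yy, ww, wt_mul]; rfl
  have e3 : wt 0 (-1) = xx * ww := by rw [xx, ww, wt_mul]; rfl
  rw [adj, e1, e2, e3, show wt 1 0 = xx from rfl, show wt 0 1 = yy from rfl,
    show wt (-1) (-1) = ww from rfl]
  simp only [ev2, ev1, hev, Int.cast_one, Int.cast_zero, Int.cast_ofNat]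
  linear_combination (-(2 + yy + xx + xx * yy)) * xyw

theorem one_eq : (1 : TC) = ww ^ 1 * ev2 [[], [0, 1]] := by
  simp only [ev2, ev1, hev, Int.cast_one, Int.cast_zero]
  linear_combination (-1) * xyw

theorem E0_adj : E0 adj = 0 := by rw [adj_eq, E0_look]; decide
theorem E0_one : E0 1 = 1 := by rw [one_eq, E0_look]; decide
theorem E1_adj : E1 adj = 1 := by rw [adj_eq, E1_look _ _ le_rfl]; decide
theorem E1_one : E1 1 = 1 := by rw [one_eq, E1_look _ _ le_rfl]; decide

/-- `P = 1 - p X ^ n` up to higher powers -/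
def near (n : ℕ) (P : PowerSeries TC) (p : TC) : Prop :=
  (PowerSeries.X : PowerSeries TC) ^ (n + 1) ∣ P - (1 - PowerSeries.monomial n p)

theorem near_mul {n : ℕ} (hn : 1 ≤ n) {P Q : PowerSeries TC} {p q : TC} (h1 : near n P p)
    (h2 : near n Q q) : near n (P * Q) (p + q) := by
  have h3 : (PowerSeries.X : PowerSeries TC) ^ (n + 1) ∣
      PowerSeries.monomial n p * PowerSeries.monomial n q := by
    rw [PowerSeries.monomial_mul_monomial, PowerSeries.X_pow_dvd_iff]
    intro m hm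
    rw [PowerSeries.coeff_monomial, if_neg (by omega)]
  have h := dvd_add (dvd_add (h1.mul_right Q) (h2.mul_left (1 - PowerSeries.monomial n p))) h3
  refine h.trans (dvd_of_eq ?_)
  rw [map_add]
  ring

theorem near_one (n : ℕ) : near n 1 0 := by
  simp [near]

theorem near_pow {n : ℕ} (hn : 1 ≤ n) {P : PowerSeries TC} {p : TC} (h1 : near n P p) :
    ∀ e : ℕ, near n (P ^ e) ((e : TC) * p)
  | 0 => by simpa using near_one n
  | e + 1 => by
    rw [pow_succ]
    have := near_mul hn (near_pow hn h1 e) h1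
    rwa [show (((e + 1 : ℕ) : TC) * p) = (e : TC) * p + p by push_cast; ring]

theorem near_fac (n a b : ℕ) (hn : 1 ≤ n) :
    near n (Fac n a b) ((a : TC) * adj + (b : TC) * 1) := by
  have h : ∀ p : TC, ∀ e : ℕ, near n ((1 - PowerSeries.monomial n p) ^ e) ((e : TC) * p) :=
    fun p e => near_pow hn (by simp [near]) e
  have h1 := near_mul hn (h 1 (2 * a + b)) (near_mul hn (h (wt 1 0) a) (near_mul hn (h (wt 0 1) a)
    (near_mul hn (h (wt 1 1) a) (near_mul hn (h (wt (-1) 0) a) (near_mul hn (h (wt 0 (-1)) a)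
    (h (wt (-1) (-1)) a))))))
  have h2 : (a : TC) * adj + (b : TC) * 1 = ((2 * a + b : ℕ) : TC) * 1 + ((a : TC) * wt 1 0 +
      ((a : TC) * wt 0 1 + ((a : TC) * wt 1 1 + ((a : TC) * wt (-1) 0 + ((a : TC) * wt 0 (-1) +
      (a : TC) * wt (-1) (-1)))))) := by
    rw [adj]; push_cast; ring
  rw [h2, Fac]
  simp only [List.map_cons, List.map_nil, List.prod_cons, List.prod_nil, mul_one] at h1 ⊢
  exact h1

theorem coeff_fac (n a b : ℕ) (hn : 1 ≤ n) (P : PowerSeries TC) (m : ℕ) (hm : m < n) :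
    PowerSeries.coeff m (P * Fac n a b) = PowerSeries.coeff m P := by
  have h1 := (near_fac n a b hn).mul_left P
  have h2 := (PowerSeries.X_pow_dvd_iff.1 h1) m (by omega)
  have h3 : (PowerSeries.X : PowerSeries TC) ^ n ∣
      P * PowerSeries.monomial n ((a : TC) * adj + (b : TC) * 1) := by
    refine Dvd.dvd.mul_left ?_ _
    rw [PowerSeries.X_pow_dvd_iff]
    intro k hk
    rw [PowerSeries.coeff_monomial, if_neg (by omega)]
  have h4 := (PowerSeries.X_pow_dvd_iff.1 h3) m hm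
  rw [mul_sub, mul_sub, mul_one, map_sub, map_sub, h4, sub_zero] at h2
  exact sub_eq_zero.1 h2

theorem coeff_fac' (n a b : ℕ) (hn : 1 ≤ n) (P : PowerSeries TC) (hP : PowerSeries.coeff 0 P = 1) :
    PowerSeries.coeff n (P * Fac n a b) =
      PowerSeries.coeff n P - ((a : TC) * adj + (b : TC) * 1) := by
  have h1 := (near_fac n a b hn).mul_left P
  have h2 := (PowerSeries.X_pow_dvd_iff.1 h1) n (by omega)
  rw [mul_sub, mul_sub, mul_one, map_sub, map_sub] at h2
  have h3 : PowerSeries.coeff n (P * PowerSeries.monomial n ((a : TC) * adj + (b : TC) * 1)) =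
      (a : TC) * adj + (b : TC) * 1 := by
    have h4 : PowerSeries.monomial n ((a : TC) * adj + (b : TC) * 1) =
        PowerSeries.C ((a : TC) * adj + (b : TC) * 1) * PowerSeries.X ^ n := by
      rw [PowerSeries.X_pow_eq, ← PowerSeries.monomial_zero_eq_C_apply,
        PowerSeries.monomial_mul_monomial, zero_add]
      congr 1
      exact (mul_one _).symm
    rw [h4, ← mul_assoc]
    have h5 := PowerSeries.coeff_mul_X_pow (P * PowerSeries.C ((a : TC) * adj + (b : TC) * 1)) n 0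
    rw [zero_add] at h5
    rw [h5, PowerSeries.coeff_mul_C, hP, one_mul]
  rw [h3] at h2
  exact sub_eq_zero.1 h2

theorem GG_const (A B : ℕ → ℕ) : ∀ N, PowerSeries.coeff 0 (GG A B N) = 1
  | 0 => by rw [GG_zero]; simp
  | N + 1 => by rw [GG_succ, coeff_fac _ _ _ (by omega) _ _ (by omega), GG_const A B N]

theorem GG_stable (A B : ℕ → ℕ) (n : ℕ) : ∀ k, PowerSeries.coeff n (GG A B (n + k)) =
    PowerSeries.coeff n (GG A B n)
  | 0 => rfl
  | k + 1 => by
    rw [← add_assoc, GG_succ, coeff_fac _ _ _ (by omega) _ _ (by omega), GG_stable A B n k]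

theorem GG_coeff (A B : ℕ → ℕ) (n : ℕ) (hn : n + 1 ≤ 10) :
    PowerSeries.coeff (n + 1) (GG A B 10) = PowerSeries.coeff (n + 1) (GG A B n) -
      ((A (n + 1) : TC) * adj + (B (n + 1) : TC) * 1) := by
  obtain ⟨k, hk⟩ := Nat.exists_eq_add_of_le hn
  rw [hk, GG_stable, GG_succ, coeff_fac' _ _ _ (by omega) _ (GG_const A B n)]

theorem get_AB (A B : ℕ → ℕ) (n : ℕ) (hn : n + 1 ≤ 10) (T : List (List (List ℤ)))
    (hT : ZZ ^ 11 ∣ ev3 T - GG A B n)
    (h0 : e03 (fun μ => (PowerSeries.coeff (n + 1) (GG A B 10)).coeff μ) = 0)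
    (h1 : egl3 (fun μ => (PowerSeries.coeff (n + 1) (GG A B 10)).coeff μ) = 0) :
    A (n + 1) = na (n + 1) T ∧ B (n + 1) = nb (n + 1) T := by
  change E0 _ = 0 at h0
  change E1 _ = 0 at h1
  rw [GG_coeff A B n hn, ← coeff_congr hT (n + 1) (by omega), coeff_ev3, E0_sub, E0_look, E0_nat,
    E0_adj, E0_one] at h0
  rw [GG_coeff A B n hn, ← coeff_congr hT (n + 1) (by omega), coeff_ev3, E1_sub,
    E1_look _ _ (by omega), E1_nat, E1_adj, E1_one] at h1
  unfold na nb
  constructor <;> omega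

theorem num3 (A B : ℕ → ℕ) (hA : A 1 = 3) (hB : B 1 = 0)
    (h0 : ∀ n, 2 ≤ n → n ≤ 10 → e03 (fun μ => (PowerSeries.coeff n (GG A B 10)).coeff μ) = 0)
    (h1 : ∀ n, 2 ≤ n → n ≤ 10 → egl3 (fun μ => (PowerSeries.coeff n (GG A B 10)).coeff μ) = 0) :
    A 10 = 56961 := by
  have key : ∀ k, k ≤ 8 → ZZ ^ 11 ∣ ev3 (st k) - GG A B (k + 1) := by
    intro k
    induction k with
    | zero =>
      intro _
      rw [GG_succ, GG_zero, hA, hB]
      refine mulF_step 1 3 0 le_rfl [[[1]]] 1 ?_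
      simp [ev3, ev2, ev1, hev]
    | succ k ih =>
      intro hk
      obtain ⟨ha, hb⟩ := get_AB A B (k + 1) (by omega) (st k) (ih (by omega))
        (h0 _ (by omega) (by omega)) (h1 _ (by omega) (by omega))
      rw [GG_succ, ha, hb]
      exact mulF_step (k + 2) _ _ (by omega) _ _ (ih (by omega))
  obtain ⟨ha, -⟩ := get_AB A B 9 (by omega) (st 8) (key 8 le_rfl)
    (h0 _ (by omega) (by omega)) (h1 _ (by omega) (by omega))
  rw [ha]
  decide +kernel

end Pool.Agent.Y93.KM
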