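import Mathlib.Data.Nat.Choose.Basic
import Mathlib.Data.Int.Basic

set_option autoImplicit false

/-! Computation with truncated power series whose coefficients are polynomials in two variables. -/

namespace Pool.Agent.Y93.KM

/-- sum of two lists of coefficients -/
def ladd {K : Type} (f : K → K → K) : List K → List K → List K
  | [], bs => bs
  | a :: as, [] => a :: as
  | a :: as, b :: bs => f a b :: ladd f as bs

/-- prepend `n` copies of `z` -/
def pad {K : Type} (z : K) : ℕ → List K → List K
  | 0, l => l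
  | n + 1, l => z :: pad z n l

/-- prepend `n` copies of `z` to a nonempty list -/
def pad' {K : Type} (z : K) (n : ℕ) : List K → List K
  | [] => []
  | a :: l => pad z n (a :: l)

/-- sum of polynomials in `y` -/
def add1 : List ℤ → List ℤ → List ℤ := ladd Int.add
/-- sum of polynomials in `x, y` -/
def add2 : List (List ℤ) → List (List ℤ) → List (List ℤ) := ladd add1
/-- sum of power series -/
def add3 : List (List (List ℤ)) → List (List (List ℤ)) → List (List (List ℤ)) := ladd add2

/-- scalar multiple -/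
def smul1 (c : ℤ) (l : List ℤ) : List ℤ := l.map (Int.mul c)
/-- scalar multiple -/
def smul2 (c : ℤ) (l : List (List ℤ)) : List (List ℤ) := l.map (smul1 c)
/-- scalar multiple -/
def smul3 (c : ℤ) (l : List (List (List ℤ))) : List (List (List ℤ)) := l.map (smul2 c)

/-- multiplication by `x ^ s * y ^ t` -/
def shift2 (s t : ℕ) (l : List (List ℤ)) : List (List ℤ) := pad' [] s (l.map (pad' 0 t))

/-- multiplication by `x ^ s * y ^ t * Z ^ n` -/
def shift3 (n s t : ℕ) (l : List (List (List ℤ))) : List (List (List ℤ)) :=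
  pad' [] n (l.map (shift2 s t))

/-- `(∑ c_k (x ^ s * y ^ t * Z ^ n) ^ k) * T` modulo `Z ^ d` -/
def hor (n s t : ℕ) (T : List (List (List ℤ))) : List ℤ → ℕ → List (List (List ℤ))
  | [], _ => []
  | c :: cs, d => match d with
    | 0 => []
    | d + 1 => add3 (smul3 c (T.take (d + 1))) (shift3 n s t (hor n s t T cs (d + 1 - n)))

/-- binomial coefficients -/
def chs (e : ℕ) : ℕ → ℕ
  | 0 => 1
  | k + 1 => chs e k * (e - k) / (k + 1)

/-- the coefficients of `(1 - Y) ^ e` -/
def scs (e : ℕ) : ℕ → ℕ → List ℤ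
  | 0, _ => []
  | L + 1, k => (if k % 2 = 0 then (chs e k : ℤ) else Int.neg (chs e k)) :: scs e L (k + 1)

/-- multiplication by `(1 - x ^ s * y ^ t * Z ^ n) ^ e` modulo `Z ^ 11` -/
def mulE (n s t e : ℕ) (T : List (List (List ℤ))) : List (List (List ℤ)) :=
  hor n s t T (scs e 11 0) 11

/-- multiplication by the factor with index `n`-/
def mulF (n a b : ℕ) (T : List (List (List ℤ))) : List (List (List ℤ)) :=
  mulE n n n (2 * a + b) (mulE n (n + 1) n a (mulE n n (n + 1) a (mulE n (n + 1) (n + 1) a
    (mulE n (n - 1) n a (mulE n n (n - 1) a (mulE n (n - 1) (n - 1) a T))))))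

/-- coefficient -/
def look (t : List (List ℤ)) (a b : ℕ) : ℤ := (t.getD a []).getD b 0

/-- `e03` -/
def f0 (t : List (List ℤ)) (a b : ℕ) : ℤ :=
  look t a b - look t (a + 1) b - look t a (b + 1) + look t (a + 2) (b + 1) +
    look t (a + 1) (b + 2) - look t (a + 2) (b + 2)

/-- `egl3` -/
def f1 (t : List (List ℤ)) (n : ℕ) : ℤ :=
  3 * f0 t n n + f0 t (n + 1) n + f0 t n (n + 1) + f0 t (n + 1) (n + 1) + f0 t (n - 1) n +
    f0 t n (n - 1) + f0 t (n - 1) (n - 1)

/-- the number `B (n + 1)` -/
def nb (n : ℕ) (T : List (List (List ℤ))) : ℕ := (f0 (T.getD n []) n n).toNat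

/-- the number `A (n + 1)` -/
def na (n : ℕ) (T : List (List (List ℤ))) : ℕ := (f1 (T.getD n []) n - f0 (T.getD n []) n n).toNat

/-- the tables -/
def st : ℕ → List (List (List ℤ))
  | 0 => mulF 1 3 0 [[[1]]]
  | n + 1 => mulF (n + 2) (na (n + 2) (st n)) (nb (n + 2) (st n)) (st n)

end Pool.Agent.Y93.KM
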