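import Pool.Agent.Y80.KM.JobDefs
import Pool.Agent.Y93.KM.Comp

set_option autoImplicit false

/-! The tables represent power series. -/

namespace Pool.Agent.Y93.KM

open Pool.Agent.Y80.KM

section hev

variable {K : Type} {S : Type} [CommRing S]

/-- evaluation of a list of coefficients -/
def hev (v : S) (φ : K → S) : List K → S
  | [] => 0
  | a :: l => φ a + v * hev v φ l

theorem hev_cons (v : S) (φ : K → S) (a : K) (l : List K) :
    hev v φ (a :: l) = φ a + v * hev v φ l := rfl

theorem hev_ladd (v : S) (φ : K → S) (f : K → K → K) (h : ∀ a b, φ (f a b) = φ a + φ b) :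
    ∀ p q, hev v φ (ladd f p q) = hev v φ p + hev v φ q
  | [], q => by simp [ladd, hev]
  | a :: p, [] => by simp [ladd, hev]
  | a :: p, b :: q => by simp only [ladd, hev, h, hev_ladd v φ f h p q]; ring

theorem hev_map (v : S) (φ : K → S) (g : K → K) (c : S) (h : ∀ a, φ (g a) = c * φ a) :
    ∀ p, hev v φ (p.map g) = c * hev v φ p
  | [] => by simp [hev]
  | a :: p => by simp only [List.map_cons, hev, h, hev_map v φ g c h p]; ring

theorem hev_pad (v : S) (φ : K → S) (z : K) (hz : φ z = 0) (l : List K) :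
    ∀ n, hev v φ (pad z n l) = v ^ n * hev v φ l
  | 0 => by simp [pad]
  | n + 1 => by simp only [pad, hev, hz, hev_pad v φ z hz l n]; ring

theorem hev_pad' (v : S) (φ : K → S) (z : K) (hz : φ z = 0) (l : List K) (n : ℕ) :
    hev v φ (pad' z n l) = v ^ n * hev v φ l := by
  cases l with
  | nil => simp [pad', hev]
  | cons a l => rw [pad', hev_pad v φ z hz]

theorem hev_take (v : S) (φ : K → S) : ∀ (n : ℕ) (l : List K),
    v ^ n ∣ hev v φ (l.take n) - hev v φ l
  | 0, l => by simp
  | n + 1, [] => by simp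
  | n + 1, a :: l => by
    obtain ⟨u, hu⟩ := hev_take v φ n l
    refine ⟨u, ?_⟩
    simp only [List.take_succ_cons, hev]
    linear_combination v * hu

end hev

/-- the first variable -/
noncomputable def xx : TC := wt 1 0
/-- the second variable -/
noncomputable def yy : TC := wt 0 1
/-- the inverse of the product -/
noncomputable def ww : TC := wt (-1) (-1)
/-- the variable of the power series -/
noncomputable def ZZ : PowerSeries TC := PowerSeries.monomial 1 ww

/-- value of a polynomial in `y` -/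
noncomputable def ev1 : List ℤ → TC := hev yy (fun a : ℤ => (a : TC))
/-- value of a polynomial in `x` and `y` -/
noncomputable def ev2 : List (List ℤ) → TC := hev xx ev1
/-- value of a series -/
noncomputable def ev3 : List (List (List ℤ)) → PowerSeries TC :=
  hev ZZ (fun t => PowerSeries.C (ev2 t))

theorem ev1_add (p q : List ℤ) : ev1 (add1 p q) = ev1 p + ev1 q :=
  hev_ladd _ _ _ (fun a b => by change ((a + b : ℤ) : TC) = _; push_cast; rfl) p q

theorem ev2_add (p q : List (List ℤ)) : ev2 (add2 p q) = ev2 p + ev2 q :=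
  hev_ladd _ _ _ ev1_add p q

theorem ev3_add (p q : List (List (List ℤ))) : ev3 (add3 p q) = ev3 p + ev3 q :=
  hev_ladd _ _ _ (fun a b => by rw [ev2_add, map_add]) p q

theorem ev1_smul (c : ℤ) (p : List ℤ) : ev1 (smul1 c p) = (c : TC) * ev1 p :=
  hev_map _ _ _ _ (fun a => by change ((c * a : ℤ) : TC) = _; push_cast; rfl) p

theorem ev2_smul (c : ℤ) (p : List (List ℤ)) : ev2 (smul2 c p) = (c : TC) * ev2 p :=
  hev_map _ _ _ _ (ev1_smul c) p

theorem ev3_smul (c : ℤ) (p : List (List (List ℤ))) :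
    ev3 (smul3 c p) = (c : PowerSeries TC) * ev3 p :=
  hev_map _ _ _ _ (fun a => by rw [ev2_smul, map_mul, map_intCast]) p

theorem ev2_shift (s t : ℕ) (p : List (List ℤ)) : ev2 (shift2 s t p) = xx ^ s * yy ^ t * ev2 p := by
  unfold shift2 ev2
  rw [hev_pad' _ _ _ (by simp [ev1, hev]), hev_map _ _ _ (yy ^ t), mul_assoc]
  intro a
  unfold ev1
  rw [hev_pad' _ _ _ (by simp)]

/-- the monomial `x ^ s * y ^ t * Z ^ n` -/
noncomputable def YY (n s t : ℕ) : PowerSeries TC := ZZ ^ n * PowerSeries.C (xx ^ s * yy ^ t)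

theorem ev3_shift (n s t : ℕ) (p : List (List (List ℤ))) :
    ev3 (shift3 n s t p) = YY n s t * ev3 p := by
  unfold shift3 ev3
  rw [hev_pad' _ _ _ (by simp [ev2, hev]), hev_map _ _ _ (PowerSeries.C (xx ^ s * yy ^ t)),
    ← mul_assoc, YY]
  intro a
  rw [ev2_shift, map_mul]

theorem hor_spec (n s t : ℕ) (T : List (List (List ℤ))) : ∀ (cs : List ℤ) (d : ℕ),
    ZZ ^ d ∣ ev3 (hor n s t T cs d) - hev (YY n s t) (fun a : ℤ => (a : PowerSeries TC)) cs * ev3 T
  | [], d => by simp [hor, hev, ev3]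
  | c :: cs, 0 => by simp
  | c :: cs, d + 1 => by
    rw [hor, ev3_add, ev3_smul, ev3_shift, hev_cons]
    have h1 : ZZ ^ (d + 1) ∣ ev3 (T.take (d + 1)) - ev3 T := hev_take _ _ _ _
    have h2 := hor_spec n s t T cs (d + 1 - n)
    have h3 : ZZ ^ (d + 1) ∣ YY n s t * (ev3 (hor n s t T cs (d + 1 - n)) -
        hev (YY n s t) (fun a : ℤ => (a : PowerSeries TC)) cs * ev3 T) := by
      refine dvd_trans ?_ (mul_dvd_mul (Dvd.intro _ rfl : ZZ ^ n ∣ YY n s t) h2)
      rw [← pow_add]
      exact pow_dvd_pow _ (by omega)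
    have h4 := dvd_add (h1.mul_left (c : PowerSeries TC)) h3
    refine h4.trans (dvd_of_eq ?_)
    ring

theorem chs_eq (e : ℕ) : ∀ k, chs e k = e.choose k
  | 0 => by simp [chs]
  | k + 1 => by
    rw [chs, chs_eq e k]
    refine Nat.div_eq_of_eq_mul_left (Nat.succ_pos k) ?_
    rw [Nat.choose_succ_right_eq]

theorem hev_scs (Y : PowerSeries TC) (e : ℕ) : ∀ L k : ℕ,
    Y ^ k * hev Y (fun a : ℤ => (a : PowerSeries TC)) (scs e L k) =
      ∑ i ∈ Finset.range L, (-Y) ^ (k + i) * (e.choose (k + i) : PowerSeries TC)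
  | 0, k => by simp [scs, hev]
  | L + 1, k => by
    have ih := hev_scs Y e L (k + 1)
    rw [scs, hev_cons, Finset.sum_range_succ', mul_add, ← mul_assoc, ← pow_succ, ih, chs_eq]
    have hc : Y ^ k * (((if k % 2 = 0 then ((e.choose k : ℕ) : ℤ) else Int.neg (e.choose k) : ℤ)) :
        PowerSeries TC) = (-Y) ^ k * (e.choose k : PowerSeries TC) := by
      split_ifs with hk
      · rw [Even.neg_pow (Nat.even_iff.2 hk)]; push_cast; rfl
      · rw [Odd.neg_pow (Nat.odd_iff.2 (by omega))]
        change Y ^ k * ((-((e.choose k : ℕ) : ℤ) : ℤ) : PowerSeries TC) = _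
        push_cast; ring
    rw [hc, add_zero, add_comm]
    congr 1
    exact Finset.sum_congr rfl fun i _ => by rw [show k + 1 + i = k + (i + 1) by ring]

theorem binom_dvd (Y : PowerSeries TC) (e L : ℕ) :
    Y ^ L ∣ (∑ i ∈ Finset.range L, (-Y) ^ i * (e.choose i : PowerSeries TC)) - (1 - Y) ^ e := by
  have h : (1 - Y) ^ e = ∑ i ∈ Finset.range (L + (e + 1)), (-Y) ^ i * (e.choose i : PowerSeries TC) := by
    rw [sub_eq_add_neg, add_comm, add_pow]
    symm
    have h1 : Finset.range (e + 1) ⊆ Finset.range (L + (e + 1)) := by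
      intro i; simp only [Finset.mem_range]; omega
    rw [← Finset.sum_subset h1]
    · exact Finset.sum_congr rfl fun i _ => by rw [one_pow, mul_one]
    · intro i _ hi
      rw [Nat.choose_eq_zero_of_lt (by simpa using hi)]
      simp
  rw [h, Finset.sum_range_add, sub_add_cancel_left, dvd_neg]
  exact Finset.dvd_sum fun i _ => Dvd.dvd.mul_right (by
    rw [neg_pow]; exact Dvd.dvd.mul_left (pow_dvd_pow _ (by omega)) _) _

theorem mulE_spec (n s t e : ℕ) (hn : 1 ≤ n) (T : List (List (List ℤ))) :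
    ZZ ^ 11 ∣ ev3 (mulE n s t e T) - (1 - YY n s t) ^ e * ev3 T := by
  have h1 := hor_spec n s t T (scs e 11 0) 11
  have h2 := hev_scs (YY n s t) e 11 0
  rw [pow_zero, one_mul] at h2
  rw [h2] at h1
  have h3 := binom_dvd (YY n s t) e 11
  have h4 : ZZ ^ 11 ∣ YY n s t ^ 11 := pow_dvd_pow_of_dvd
    ((dvd_pow_self _ (by omega)).trans (Dvd.intro _ rfl : ZZ ^ n ∣ YY n s t)) _
  have h5 := (h4.trans h3).mul_right (ev3 T)
  refine (dvd_add h1 h5).trans (dvd_of_eq ?_)
  simp only [zero_add, mulE]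
  ring

end Pool.Agent.Y93.KM
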