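import Pool.Agent.Y93.KM.Eval

set_option autoImplicit false

/-! The series `GG` and its coefficients. -/

namespace Pool.Agent.Y93.KM

open Pool.Agent.Y80.KM

theorem wt_mul (a b c d : ℤ) : wt a b * wt c d = wt (a + c) (b + d) := by
  simp [wt, AddMonoidAlgebra.single_mul_single]

theorem wt_zero : wt 0 0 = 1 := rfl

theorem wt_pow (a b : ℤ) : ∀ n : ℕ, wt a b ^ n = wt (n * a) (n * b)
  | 0 => by simp [wt_zero]
  | n + 1 => by rw [pow_succ, wt_pow a b n, wt_mul]; congr 1 <;> push_cast <;> ring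

theorem YY_eq (n s t : ℕ) :
    YY n s t = PowerSeries.monomial n (wt ((s : ℤ) - n) ((t : ℤ) - n)) := by
  rw [YY, ZZ, PowerSeries.monomial_pow, ← PowerSeries.monomial_zero_eq_C_apply,
    PowerSeries.monomial_mul_monomial, xx, yy, ww, wt_pow, wt_pow, wt_pow, wt_mul, wt_mul]
  congr 2 <;> ring

/-- the factor with index `n` -/
noncomputable def Fac (n a b : ℕ) : PowerSeries TC :=
  (1 - PowerSeries.monomial n (1 : TC)) ^ (2 * a + b) *
      (([(1, 0), (0, 1), (1, 1), (-1, 0), (0, -1), (-1, -1)] : List (ℤ × ℤ)).map fun α =>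
        (1 - PowerSeries.monomial n (wt α.1 α.2)) ^ a).prod

theorem GG_succ (A B : ℕ → ℕ) (N : ℕ) :
    GG A B (N + 1) = GG A B N * Fac (N + 1) (A (N + 1)) (B (N + 1)) := by
  rw [GG, Finset.prod_Icc_succ_top (by omega)]
  rfl

theorem GG_zero (A B : ℕ → ℕ) : GG A B 0 = 1 := by
  rw [GG]; simp

theorem mulE_step (n s t e : ℕ) (hn : 1 ≤ n) (T : List (List (List ℤ))) (P : PowerSeries TC)
    (h : ZZ ^ 11 ∣ ev3 T - P) (u v : ℤ) (hu : (s : ℤ) - n = u) (hv : (t : ℤ) - n = v) :
    ZZ ^ 11 ∣ ev3 (mulE n s t e T) - (1 - PowerSeries.monomial n (wt u v)) ^ e * P := by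
  have h1 := mulE_spec n s t e hn T
  rw [YY_eq, hu, hv] at h1
  have h2 := h.mul_left ((1 - PowerSeries.monomial n (wt u v)) ^ e)
  refine (dvd_add h1 h2).trans (dvd_of_eq ?_)
  ring

theorem mulF_step (n a b : ℕ) (hn : 1 ≤ n) (T : List (List (List ℤ))) (P : PowerSeries TC)
    (h : ZZ ^ 11 ∣ ev3 T - P) : ZZ ^ 11 ∣ ev3 (mulF n a b T) - P * Fac n a b := by
  have h1 := mulE_step n (n - 1) (n - 1) a hn T P h (-1) (-1) (by omega) (by omega)
  have h2 := mulE_step n n (n - 1) a hn _ _ h1 0 (-1) (by omega) (by omega)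
  have h3 := mulE_step n (n - 1) n a hn _ _ h2 (-1) 0 (by omega) (by omega)
  have h4 := mulE_step n (n + 1) (n + 1) a hn _ _ h3 1 1 (by omega) (by omega)
  have h5 := mulE_step n n (n + 1) a hn _ _ h4 0 1 (by omega) (by omega)
  have h6 := mulE_step n (n + 1) n a hn _ _ h5 1 0 (by omega) (by omega)
  have h7 := mulE_step n n n (2 * a + b) hn _ _ h6 0 0 (by omega) (by omega)
  refine h7.trans (dvd_of_eq ?_)
  rw [mulF, Fac, wt_zero]
  simp only [List.map_cons, List.map_nil, List.prod_cons, List.prod_nil, mul_one]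
  ring

theorem coeff_congr {P Q : PowerSeries TC} (h : ZZ ^ 11 ∣ P - Q) (m : ℕ) (hm : m < 11) :
    PowerSeries.coeff m P = PowerSeries.coeff m Q := by
  have h1 : (PowerSeries.X : PowerSeries TC) ^ 11 ∣ ZZ ^ 11 := by
    refine pow_dvd_pow_of_dvd ?_ _
    refine ⟨PowerSeries.C ww, ?_⟩
    rw [PowerSeries.X_eq, ← PowerSeries.monomial_zero_eq_C_apply,
      PowerSeries.monomial_mul_monomial, one_mul]
    rfl
  have h2 := (PowerSeries.X_pow_dvd_iff.1 (h1.trans h)) m hm
  rw [map_sub] at h2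
  exact sub_eq_zero.1 h2

theorem coeff_ev3 : ∀ (T : List (List (List ℤ))) (m : ℕ),
    PowerSeries.coeff m (ev3 T) = ww ^ m * ev2 (T.getD m [])
  | [], m => by simp [ev3, ev2, hev]
  | t :: T, 0 => by
    change PowerSeries.coeff 0 (PowerSeries.C (ev2 t) + ZZ * ev3 T) = _
    rw [map_add, PowerSeries.coeff_zero_C, PowerSeries.coeff_zero_eq_constantCoeff_apply, map_mul,
      ← PowerSeries.coeff_zero_eq_constantCoeff_apply, ZZ, PowerSeries.coeff_monomial]
    simp
  | t :: T, m + 1 => by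
    change PowerSeries.coeff (m + 1) (PowerSeries.C (ev2 t) + ZZ * ev3 T) = _
    have hZ : ZZ = PowerSeries.C ww * PowerSeries.X := by
      rw [PowerSeries.X_eq, ← PowerSeries.monomial_zero_eq_C_apply,
        PowerSeries.monomial_mul_monomial, mul_one]
      rfl
    rw [map_add, hZ, mul_assoc, PowerSeries.coeff_C_mul, PowerSeries.coeff_succ_X_mul,
      coeff_ev3 T m, PowerSeries.coeff_C, if_neg (by omega), zero_add, List.getD_cons_succ,
      ← mul_assoc, pow_succ']

theorem coeff_wt_mul (a b : ℤ) (p : TC) (i j : ℤ) :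
    (wt a b * p).coeff (i, j) = p.coeff (i - a, j - b) := by
  rw [wt, AddMonoidAlgebra.coeff_single_mul_apply, one_mul]
  congr 1
  ext <;> simp <;> ring

theorem cst_coeff (c : ℤ) (p : ℤ × ℤ) :
    ((c : ℤ) : TC).coeff p = if (0 : ℤ × ℤ) = p then c else 0 := by
  rw [AddMonoidAlgebra.intCast_def, AddMonoidAlgebra.coeff_single, Finsupp.single_apply]
  rfl

theorem ev1_ne (r : List ℤ) (i j : ℤ) (h : i ≠ 0 ∨ j < 0) : (ev1 r).coeff (i, j) = 0 := by
  induction r generalizing j with
  | nil => simp [ev1, hev]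
  | cons c r ih =>
    change ((c : TC) + yy * ev1 r).coeff (i, j) = 0
    rw [AddMonoidAlgebra.coeff_add, Finsupp.add_apply, yy, coeff_wt_mul, sub_zero,
      ih _ (by omega), add_zero, cst_coeff, if_neg]
    intro h'
    have h1 := congrArg Prod.fst h'
    have h2 := congrArg Prod.snd h'
    simp at h1 h2
    omega

theorem ev1_coeff (r : List ℤ) (j : ℕ) : (ev1 r).coeff (0, (j : ℤ)) = r.getD j 0 := by
  induction r generalizing j with
  | nil => simp [ev1, hev]
  | cons c r ih =>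
    change ((c : TC) + yy * ev1 r).coeff (0, (j : ℤ)) = _
    rw [AddMonoidAlgebra.coeff_add, Finsupp.add_apply, yy, coeff_wt_mul, sub_zero,
      cst_coeff]
    cases j with
    | zero =>
      rw [ev1_ne _ _ _ (Or.inr (by norm_num)), Nat.cast_zero, if_pos Prod.mk_zero_zero.symm]
      simp
    | succ j =>
      rw [if_neg, List.getD_cons_succ, ← ih, zero_add]
      · congr 1; ext <;> simp
      · intro h'
        have h2 := congrArg Prod.snd h'
        simp at h2
        omega

theorem ev2_neg (t : List (List ℤ)) (i j : ℤ) (h : i < 0) : (ev2 t).coeff (i, j) = 0 := by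
  induction t generalizing i with
  | nil => simp [ev2, hev]
  | cons c r ih =>
    change (ev1 c + xx * ev2 r).coeff (i, j) = 0
    rw [AddMonoidAlgebra.coeff_add, Finsupp.add_apply, xx, coeff_wt_mul, sub_zero,
      ih _ (by omega), add_zero, ev1_ne _ _ _ (Or.inl (by omega))]

theorem ev2_coeff (t : List (List ℤ)) (i j : ℕ) : (ev2 t).coeff ((i : ℤ), (j : ℤ)) = look t i j := by
  induction t generalizing i with
  | nil => simp [ev2, hev, look]
  | cons c r ih =>
    change (ev1 c + xx * ev2 r).coeff ((i : ℤ), (j : ℤ)) = _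
    rw [AddMonoidAlgebra.coeff_add, Finsupp.add_apply, xx, coeff_wt_mul, sub_zero]
    cases i with
    | zero =>
      rw [ev2_neg _ _ _ (by norm_num), add_zero, Nat.cast_zero, ev1_coeff]
      simp [look]
    | succ i =>
      rw [ev1_ne _ _ _ (Or.inl (by omega)), zero_add, show ((i + 1 : ℕ) : ℤ) - 1 = (i : ℤ) by
        push_cast; ring, ih]
      simp [look]

theorem coeff_look (t : List (List ℤ)) (m : ℕ) (i j : ℤ) (i' j' : ℕ) (hi : i + m = i')
    (hj : j + m = j') : (ww ^ m * ev2 t).coeff (i, j) = look t i' j' := by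
  rw [ww, wt_pow, coeff_wt_mul, ← ev2_coeff, ← hi, ← hj]
  congr 1
  ext <;> simp

end Pool.Agent.Y93.KM
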